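import Pool.Agent.H12.UCR.Stmts4

/-!
# Row DN2 of the board `ucr`: density, by convolution with `κ_s`
-/

set_option autoImplicit false

open MeasureTheory Filter Topology

namespace Pool.UCR

theorem dn2_norm {p : ℕ} (μ : PP p) (j : ℕ) : ‖fc μ j‖ ≤ 1 := by
  unfold fc
  have h1 := norm_integral_le_of_norm_le_const (μ := ((μ.1 : ProbabilityMeasure UnitAddCircle) :
    Measure UnitAddCircle)) (f := fun x : UnitAddCircle => fourier (j : ℤ) x) (C := 1)
    (Filter.Eventually.of_forall fun x => by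
      show ‖fourier (j : ℤ) x‖ ≤ 1
      rw [fourier_apply]
      exact (Circle.norm_coe _).le)
  simpa using h1

theorem dn2_thm (hNBH : NBHS) (hCNV : CNVS) (hKAP : KAPS) (hDEC : DECS) : DN2S := by
  intro p q hp hq hMI W hW hne
  obtain ⟨μ, hμ⟩ := hne
  obtain ⟨m, η, hη, hnear⟩ := hNBH p μ W hW hμ
  obtain ⟨s, hs⟩ : ∃ s : ℝ, s = min (1 / 2) (η / (7 * m + 8)) := ⟨_, rfl⟩
  have hm8 : (0 : ℝ) < 7 * m + 8 := by positivity
  have hs0 : 0 < s := by
    rw [hs]
    exact lt_min (by norm_num) (div_pos hη hm8)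
  have hs1 : s < 1 := by
    rw [hs]
    exact (min_le_left _ _).trans_lt (by norm_num)
  have hs2 : (7 * m + 8) * s ≤ η := by
    have h1 : s ≤ η / (7 * m + 8) := by
      rw [hs]
      exact min_le_right _ _
    calc (7 * m + 8) * s ≤ (7 * m + 8) * (η / (7 * m + 8)) := mul_le_mul_of_nonneg_left h1 hm8.le
      _ = η := by field_simp
  obtain ⟨κ, hκ1, hκ2⟩ := hKAP p s hp hs0.le hs1.le
  obtain ⟨ν, hν⟩ := hCNV p μ κ
  refine ⟨ν, hnear ν ?_, ?_⟩
  · intro j hj
    have e : fc ν j - fc μ j = fc μ j * (fc κ j - 1) := by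
      rw [hν]
      ring
    rw [e, norm_mul]
    have h1 : ‖fc μ j‖ * ‖fc κ j - 1‖ ≤ 1 * (7 * j * s) :=
      mul_le_mul (dn2_norm μ j) (hκ2 j) (norm_nonneg _) zero_le_one
    have h2 : (7 * (j : ℝ) * s) ≤ 7 * m * s := by
      have h3 : (j : ℝ) ≤ m := by exact_mod_cast hj
      have h4 : 7 * (j : ℝ) ≤ 7 * m := by linarith
      exact mul_le_mul_of_nonneg_right h4 hs0.le
    linarith
  · intro k hk
    have h1 := hDEC p q s κ hp hq hMI hs0 hs1 hκ1 k hk
    refine squeeze_zero_norm (fun N => ?_) h1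
    unfold Av
    rw [norm_mul, norm_inv, Complex.norm_natCast]
    refine mul_le_mul_of_nonneg_left ?_ (by positivity)
    refine (norm_sum_le _ _).trans (Finset.sum_le_sum fun n _ => ?_)
    rw [hν, norm_mul]
    calc ‖fc μ (k * q ^ n)‖ * ‖fc κ (k * q ^ n)‖ ≤ 1 * ‖fc κ (k * q ^ n)‖ :=
          mul_le_mul_of_nonneg_right (dn2_norm μ _) (norm_nonneg _)
      _ = ‖fc κ (k * q ^ n)‖ := one_mul _

end Pool.UCR
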