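import Pool.Agent.H12.UCR.Stmts3

/-!
# Row EVP of the board `ucr`: `S p L a (k q ^ n)` is eventually periodic in `n`
-/

set_option autoImplicit false

open MeasureTheory Filter Topology

namespace Pool.UCR

theorem evp_thm : EVPS := by
  intro p q L a k hp hL
  obtain ⟨D, hD⟩ : ∃ D : ℕ, D = p ^ L - 1 := ⟨_, rfl⟩
  have hpL : 2 ≤ p ^ L := hp.trans (Nat.le_self_pow (by omega) p)
  have hD1 : 1 ≤ D := by omega
  haveI : NeZero D := ⟨by omega⟩
  obtain ⟨i, j, hij, he⟩ := Finite.exists_ne_map_eq_of_infinite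
    (fun n : ℕ => ((q ^ n : ℕ) : ZMod D))
  have key : ∀ i j : ℕ, i < j → ((q ^ i : ℕ) : ZMod D) = ((q ^ j : ℕ) : ZMod D) →
      ∃ n0 P : ℕ, 1 ≤ P ∧ ∀ n, n0 ≤ n → S p L a (k * q ^ (n + P)) = S p L a (k * q ^ n) := by
    clear he hij i j
    intro i j hlt he
    refine ⟨i, j - i, by omega, ?_⟩
    intro n hn
    have h1 : ((q ^ n : ℕ) : ZMod D) = ((q ^ (n + (j - i)) : ℕ) : ZMod D) := by
      have e1 : n + (j - i) = (n - i) + j := by omega
      have e2 : q ^ n = q ^ (n - i) * q ^ i := by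
        rw [← pow_add]
        congr 1
        omega
      rw [e1, pow_add, e2, Nat.cast_mul, Nat.cast_mul, he]
    obtain ⟨m, hm⟩ : ∃ m : ℤ, ((q ^ (n + (j - i)) : ℕ) : ℤ) - ((q ^ n : ℕ) : ℤ) = D * m :=
      Nat.modEq_iff_dvd.1 ((ZMod.natCast_eq_natCast_iff _ _ _).1 h1)
    have hm2 : (q : ℂ) ^ (n + (j - i)) = (q : ℂ) ^ n + D * m := by
      have h2 : ((((q ^ (n + (j - i)) : ℕ) : ℤ) - ((q ^ n : ℕ) : ℤ) : ℤ) : ℂ) =
          (((D : ℤ) * m : ℤ) : ℂ) := by rw [hm]
      push_cast at h2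
      linear_combination h2
    have h3 : (p : ℂ) ^ L - 1 = D := by
      rw [hD, Nat.cast_sub (by omega)]
      push_cast
      rfl
    have hD0 : (D : ℂ) ≠ 0 := by
      exact_mod_cast (show D ≠ 0 by omega)
    unfold S
    congr 1
    refine Finset.sum_congr rfl fun l _ => ?_
    rw [Complex.exp_eq_exp_iff_exists_int]
    refine ⟨k * m * a * p ^ l, ?_⟩
    push_cast
    rw [hm2, h3]
    field_simp
  rcases lt_or_gt_of_ne hij with h | h
  · exact key i j h he
  · exact key j i h he.symm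

end Pool.UCR
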